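import Pool.Agent.H26.LM.Defs

/-!
# Flat isomorphisms between factors
-/

noncomputable section

namespace GD

open Complex NumberField

/-- The operator `f` commutes with the monodromy. -/
def Variation.Comm {B : Curve} {S : Str} (H : Variation B S) (f : Module.End ℂ S.W) : Prop :=
  ∀ g ∈ H.deck, ∀ w, g.act (f w) = f (g.act w)

/-- `φ` is an isomorphism from the factor of `S` on which the field `K` acts by `μ` to the factor on
which it acts by `κ`, linear over `K`, which respects the Betti and Hodge data (nothing is assumed
on the de Rham data), and which is flat in a polarised variation over a curve of which `S` is a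
fibre. Up to scalars it is the only flat homomorphism over `K` between the parts on which `K` acts
through one embedding (by Schur's lemma this holds if the parts are irreducible), and for every
embedding which is not real the determinants of periods of the two parts agree up to algebraic
factors. -/
structure FlatIso {S : Str} {K : Type} [Field K] (κ μ : Act K S) (φ : Module.End ℂ S.W) where
  /-- the curve -/
  B : Curve
  /-- the variation -/
  H : Variation B S
  /-- the parameter of `S` -/
  s : ℂ
  hs : s ∈ B.U ∧ B.x s ∈ Qbar
  dR_s : S.D = Submodule.span Qbar (Set.range fun i => H.ω i s)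
  act : ∀ a, IsHom S S (κ a) ∧ IsHom S S (μ a) ∧ H.Comm (κ a) ∧ H.Comm (μ a)
  flat : H.Comm φ
  betti : ∀ w ∈ S.B, φ w ∈ S.B
  hodge : ∀ p, ∀ w ∈ S.hodge p, φ w ∈ S.hodge p
  lin : ∀ a, φ * μ a = κ a * φ
  inv : ∃ ψ, ψ * φ = μ 1 ∧ φ * ψ = κ 1
  unique : ∀ f, H.Comm f → (∀ a, f * μ a = κ a * f) →
    ∀ τ, ∃ c : ℂ, ∀ w ∈ eigenpart μ τ, f w = c • φ w
  det : ∀ τ, ComplexEmbedding.conjugate τ ≠ τ → ∀ y z, IsFactorPeriod κ τ y →
    IsFactorPeriod μ τ z → Sim y z

/-- The structure `S` is the sum of the image of a structure in the class `C` and of a factor which
is related to a factor in this image by a flat isomorphism. -/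
def FlatIsoInto (C : Str → Prop) (S : Str) : Prop :=
  ∃ (Q : Str) (i : Q.W →ₗ[ℂ] S.W) (K : Type) (_ : Field K) (_ : NumberField K) (κ μ : Act K S)
    (φ : Module.End ℂ S.W), C Q ∧ IsHom Q S i ∧ Nonempty (FlatIso κ μ φ) ∧
      LinearMap.range (μ 1) ≤ LinearMap.range i ∧ LinearMap.range i ⊔ LinearMap.range (κ 1) = ⊤

/-- The structure `R` is reached from the class `C₀`: it lies in every class `C` of structures which
contains `C₀` and the polarised structures of gamma type, which is closed under tensor products,
direct sums and quotients, which contains every polarised structure `S` such that the actions of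
imaginary cyclic subfields of `F` through the centre of the endomorphisms of `S` are flat in
families over curves with a limit in the class `C`, and every structure which is related to a
structure in the class by a flat isomorphism. -/
def ReachedT (C₀ : Str → Prop) {F : Type} [Field F] (e : F →+* ℂ) (R : Str) : Prop :=
  ∀ C : Str → Prop, (∀ S, C₀ S → C S) → (∀ S, Nonempty (Pol S) → GammaType S → C S) →
    (∀ S, Gen C S → C S) → (∀ S, Nonempty (Pol S) → FlatL C S e → C S) →
    (∀ S, FlatIsoInto C S → C S) → C R

end GD
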