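import Pool.Agent.H44.TR.Part
import Pool.Agent.H26.FC.Alg

/-!
# A flat isomorphism is defined over the algebraic numbers up to scalars
-/

noncomputable section

namespace GD

open Complex NumberField Module

section part

variable {S : Str} {n : ℕ} (b : Basis (Fin n) ℂ S.W)
  (hD : S.D = Submodule.span Qbar (Set.range b))

include hD

private theorem tr_coord {w : S.W} (hw : w ∈ S.D) (k : Fin n) : b.coord k w ∈ Qbar := by
  rw [hD] at hw
  induction hw using Submodule.span_induction with
  | mem x hx =>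
    obtain ⟨i, rfl⟩ := hx
    rw [Basis.coord_apply, Basis.repr_self, Finsupp.single_apply]
    split_ifs
    · exact one_mem Qbar
    · exact zero_mem Qbar
  | zero =>
    rw [map_zero]
    exact zero_mem Qbar
  | add x y _ _ hx hy =>
    rw [map_add]
    exact add_mem hx hy
  | smul q x _ hx =>
    have h1 : q • x = (q : ℂ) • x := rfl
    rw [h1, map_smul, smul_eq_mul]
    exact mul_mem q.2 hx

private theorem tr_mem {w : S.W} (hw : ∀ k, b.coord k w ∈ Qbar) : w ∈ S.D := by
  rw [hD, ← b.sum_repr w]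
  refine Submodule.sum_mem _ fun k _ => ?_
  exact Submodule.smul_mem _ (⟨b.coord k w, hw k⟩ : Qbar) (Submodule.subset_span ⟨k, rfl⟩)

/-- The part of an operator with respect to a linear functional satisfies the same linear relations
with operators which preserve the de Rham form. -/
private theorem tr_comm (l : ℂ →ₗ[Qbar] Qbar) {f f' : Module.End ℂ S.W}
    (hf : ∀ w ∈ S.D, ∀ k, b.coord k (f' w) = l (b.coord k (f w))) {α β : Module.End ℂ S.W}
    (hα : ∀ w ∈ S.D, α w ∈ S.D) (hβ : ∀ w ∈ S.D, β w ∈ S.D) (h : f * α = β * f) :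
    f' * α = β * f' := by
  have hbD : ∀ j, b j ∈ S.D := fun j => by
    rw [hD]
    exact Submodule.subset_span ⟨j, rfl⟩
  have hexp : ∀ (v : S.W) k, b.coord k (β v) = ∑ m, b.coord k (β (b m)) * b.coord m v := by
    intro v k
    conv_lhs => rw [← b.sum_repr v]
    rw [map_sum, map_sum]
    refine Finset.sum_congr rfl fun m _ => ?_
    rw [map_smul, map_smul, smul_eq_mul, mul_comm]
    rfl
  refine b.ext fun j => b.ext_elem fun k => ?_
  change b.coord k (f' (α (b j))) = b.coord k (β (f' (b j)))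
  have h1 : f (α (b j)) = β (f (b j)) := LinearMap.congr_fun h (b j)
  rw [hf _ (hα _ (hbD j)), h1, hexp, hexp, map_sum]
  push_cast
  refine Finset.sum_congr rfl fun m _ => ?_
  rw [ellQ_mul l (tr_coord b hD (hβ _ (hbD m)) k), hf _ (hbD j)]

end part

variable {S : Str} {K : Type} [Field K] [NumberField K] {κ μ : Act K S} {φ : Module.End ℂ S.W}

/-- On the part on which `K` acts through one embedding, a flat isomorphism becomes compatible with
the de Rham forms after multiplication with a constant. -/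
theorem FlatIso.exists_const (V : FlatIso κ μ φ) {τ : K →+* ℂ} (h : eigenpart μ τ ≠ ⊥) :
    ∃ c : ℂ, c ≠ 0 ∧ ∀ w ∈ S.D, w ∈ eigenpart μ τ → c • φ w ∈ S.D := by
  classical
  let b : Basis (Fin V.H.n) ℂ S.W := Basis.mk (V.H.indep V.s V.hs.1) (V.H.span V.s V.hs.1).ge
  have hb : ∀ i, b i = V.H.ω i V.s := fun i => Basis.mk_apply _ _ i
  have hD : S.D = Submodule.span Qbar (Set.range b) := by
    rw [V.dR_s]
    congr 2
    exact funext fun i => (hb i).symm
  have hbD : ∀ j, b j ∈ S.D := fun j => by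
    rw [hD]
    exact Submodule.subset_span ⟨j, rfl⟩
  -- a de Rham vector in the eigenpart
  obtain ⟨π, hπ, hπD, -⟩ := exists_eigProj μ (fun a => (V.act a).2.1) τ
  have hex : ∃ j, π (b j) ≠ 0 := by
    by_contra hcon
    push Not at hcon
    apply h
    have h1 : π = 0 := b.ext hcon
    rw [← hπ, h1, LinearMap.range_zero]
  obtain ⟨j, hj⟩ := hex
  have hw0 : π (b j) ∈ eigenpart μ τ := by
    rw [← hπ]
    exact ⟨_, rfl⟩
  have hφ0 : φ (π (b j)) ≠ 0 := by
    intro h0
    apply hj
    obtain ⟨ψ, hψ, -⟩ := V.inv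
    have h1 := LinearMap.congr_fun hψ (π (b j))
    rw [Module.End.mul_apply, h0, map_zero] at h1
    have h2 := (mem_eigenpart μ τ _).1 hw0 1
    rw [map_one τ, one_smul] at h2
    rw [← h2, ← h1]
  have hexk : ∃ k, b.coord k (φ (π (b j))) ≠ 0 := by
    by_contra hcon
    push Not at hcon
    exact hφ0 (b.ext_elem fun k => by rw [map_zero]; exact hcon k)
  obtain ⟨k, hk⟩ := hexk
  -- the functional
  obtain ⟨l₀, hl₀⟩ := exists_ellQ
  let l : ℂ →ₗ[Qbar] Qbar := l₀ ∘ₗ LinearMap.mulLeft Qbar (b.coord k (φ (π (b j))))⁻¹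
  have hl : l (b.coord k (φ (π (b j)))) = 1 := by
    change l₀ ((b.coord k (φ (π (b j))))⁻¹ * b.coord k (φ (π (b j)))) = 1
    rw [inv_mul_cancel₀ hk]
    exact hl₀ 1
  obtain ⟨f', hf'c, hf'⟩ := V.H.exists_part V.hs.1 V.hs.2 b hb l φ V.flat
  rw [← hD] at hf'
  obtain ⟨c, hc⟩ := V.unique f' hf'c (fun a => tr_comm b hD l hf'
    (fun w hw => (V.act a).2.1.deRham w hw) (fun w hw => (V.act a).1.deRham w hw) (V.lin a)) τ
  refine ⟨c, ?_, fun w hw hwτ => ?_⟩
  · rintro rfl
    have h1 := hc _ hw0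
    rw [zero_smul] at h1
    have h2 := hf' _ (hπD _ (hbD j)) k
    rw [h1, map_zero, hl] at h2
    exact zero_ne_one (α := ℂ) (h2.trans (by push_cast; rfl))
  · rw [← hc w hwτ]
    refine tr_mem b hD fun k => ?_
    rw [hf' w hw]
    exact SetLike.coe_mem _

end GD
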