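import Pool.Agent.H44.TR.Per
import Pool.Agent.H26.LM.Main

/-!
# The class reached by degenerating families and flat isomorphisms
-/

noncomputable section

namespace GD

open Complex NumberField

variable {C₀ : Str → Prop} {F : Type} [Field F] [NumberField F] {e : F →+* ℂ}

/-- A structure which is related to a structure of the class by a flat isomorphism is generated by
the class. -/
theorem gen_of_flatIso {C : Str → Prop} {S : Str} (h : FlatIsoInto C S) : Gen C S := by
  obtain ⟨Q, i, K, _, _, κ, μ, φ, hQ, hi, ⟨V⟩, hμ, htop⟩ := h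
  refine Gen.lin S 2 (fun _ => Q) ![i, (φ * μ 1) ∘ₗ i] (fun _ => Gen.base Q hQ) ?_ ?_
  · intro k
    fin_cases k
    · exact hi
    · exact V.isHom.comp hi
  · rw [eq_top_iff, ← htop]
    refine sup_le (le_iSup_of_le 0 (le_refl _)) (le_iSup_of_le 1 ?_)
    rintro _ ⟨w, rfl⟩
    obtain ⟨ψ, -, hψ⟩ := V.inv
    obtain ⟨q, hq⟩ := hμ ⟨ψ w, rfl⟩
    refine ⟨q, ?_⟩
    change φ (μ 1 (i q)) = κ 1 w
    have h1 : μ 1 (μ 1 (ψ w)) = μ 1 (ψ w) := by
      rw [← Module.End.mul_apply, ← map_mul, one_mul]
    have h2 : κ 1 (κ 1 w) = κ 1 w := by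
      rw [← Module.End.mul_apply, ← map_mul, one_mul]
    have h3 := LinearMap.congr_fun (V.lin 1) (ψ w)
    rw [Module.End.mul_apply, Module.End.mul_apply] at h3
    have h4 := LinearMap.congr_fun hψ w
    rw [Module.End.mul_apply] at h4
    rw [hq, h1, h3, h4, h2]

/-- The Gross-Deligne relation holds for all admissible triples in the structures reached from
`C₀` if and only if it holds for the determinants of the central actions on the members of
`C₀`. -/
theorem reachedT_iff (hB : ∀ S, C₀ S → Nonempty (Pol S)) (he : ∃ d, LiesIn e d) :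
    (∀ R, ReachedT C₀ e R → ∀ A : Adm R F, Relation A e) ↔ CentralFor C₀ e := by
  constructor
  · intro h
    refine central_of_triples hB he fun R hR A => h R ?_ A
    intro C h1 _ h3 _ _
    exact h3 R (Gen.mono_of (fun S hS => Gen.base S (h1 S hS)) hR)
  · intro h R hR A
    have hD := detFor_of_central hB h
    let C : Str → Prop := fun S => Nonempty (Pol S) ∧ DetFor (fun R => R = S) e
    have hP : ∀ S, C S → Nonempty (Pol S) := fun S hS => hS.1
    have hC : DetFor C e := fun K _ _ i him hG hc S hS M hM ι hι =>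
      hS.2 K i him hG hc S rfl M hM ι hι
    have hT : TriplesFor (Gen C) e := fun R hR A => det_suffices hP e he hC hR A
    refine hT R (hR (Gen C) ?_ ?_ ?_ ?_ ?_) A
    · intro S h1
      refine Gen.base S ⟨hB S h1, ?_⟩
      intro K _ _ i him hG hc S' hS' M hM ι hι
      exact hD K i him hG hc S' (by rw [hS']; exact h1) M hM ι hι
    · intro S h1 h2
      refine Gen.base S ⟨h1, ?_⟩
      exact triples_gamma (fun R => R = S) (fun R hR => hR ▸ h1) (fun R hR => hR ▸ h2) e he
    · exact fun S hS => Gen.mono_of (fun _ h => h) hS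
    · rintro S ⟨P⟩ h2
      refine Gen.base S ⟨⟨P⟩, ?_⟩
      refine detFor_of_flatL he ?_ P h2
      exact fun R hR A => hT R (Gen.mono_of (fun T hT => hT.2) hR) A
    · exact fun S hS => Gen.mono_of (fun _ h => h) (gen_of_flatIso hS)

/-- The Gross-Deligne relation holds for all admissible triples in the structures reached from
`C₀` if and only if it holds for those in the structures generated by `C₀`. -/
theorem reachedT_iff_gen (hB : ∀ S, C₀ S → Nonempty (Pol S)) (he : ∃ d, LiesIn e d) :
    (∀ R, ReachedT C₀ e R → ∀ A : Adm R F, Relation A e) ↔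
      ∀ R, Gen C₀ R → ∀ A : Adm R F, Relation A e := by
  constructor
  · intro h R hR A
    refine h R ?_ A
    intro C h1 _ h3 _ _
    exact h3 R (Gen.mono_of (fun S hS => Gen.base S (h1 S hS)) hR)
  · exact fun h => (reachedT_iff hB he).2 (central_of_triples hB he h)

end GD
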