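import Pool.Agent.H44.TR.Defs
import Pool.Agent.H26.FC.Frm

/-!
# The flat operators are defined over the algebraic numbers
-/

noncomputable section

namespace GD

open Complex Filter Topology Module

/-- A linear functional over the algebraic numbers maps solutions of a linear system to
solutions. -/
theorem Curve.descent_part (B : Curve) {ι : Type} [Fintype ι] {s : ℂ} (hs : s ∈ B.U)
    (hxs : B.x s ∈ Qbar) (l : ℂ →ₗ[Qbar] Qbar) {y : ι → ℂ → ℂ} (hy : ∀ i, B.RegC (y i))
    {M : ι → ι → ℂ → ℂ} (hM : ∀ i j, M i j ∈ B.A)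
    (hd : ∀ i, ∀ z ∈ B.U, HasDerivAt (y i) (deriv B.x z * ∑ j, M i j z * y j z) z) :
    ∃ b : ι → ℂ → ℂ, (∀ i, b i ∈ B.A) ∧
      (∀ i, ∀ z ∈ B.U, HasDerivAt (b i) (deriv B.x z * ∑ j, M i j z * b j z) z) ∧
      ∀ i, b i s = l (y i s) := by
  choose k c a ha hya using hy
  have hda : ∀ i j, ∃ a' ∈ B.A, ∀ z ∈ B.U, deriv (a i j) z = deriv B.x z * a' z :=
    fun i j => B.der _ (ha i j)
  choose a' ha' hda using hda
  let b : ι → ℂ → ℂ := fun i => ∑ j, (l (c i j)) • a i j
  let b' : ι → ℂ → ℂ := fun i => ∑ j, (l (c i j)) • a' i j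
  have hb : ∀ i, b i ∈ B.A := fun i =>
    Subalgebra.sum_mem _ fun j _ => B.A.smul_mem (ha i j) _
  have hb' : ∀ i, b' i ∈ B.A := fun i =>
    Subalgebra.sum_mem _ fun j _ => B.A.smul_mem (ha' i j) _
  have hbz : ∀ i z, b i z = ∑ j, (l (c i j) : ℂ) * a i j z := by
    intro i z
    change (∑ j, (l (c i j)) • a i j) z = _
    rw [Finset.sum_apply]
    rfl
  have hbz' : ∀ i z, b' i z = ∑ j, (l (c i j) : ℂ) * a' i j z := by
    intro i z
    change (∑ j, (l (c i j)) • a' i j) z = _
    rw [Finset.sum_apply]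
    rfl
  -- the values at algebraic points
  have key : ∀ i (f : Fin (k i) → ℂ), (∀ j, f j ∈ Qbar) →
      ∑ j, (l (c i j) : ℂ) * f j = l (∑ j, c i j * f j) := by
    intro i f hf
    rw [map_sum]
    push_cast
    refine Finset.sum_congr rfl fun j _ => ?_
    rw [mul_comm (c i j), ellQ_mul l (hf j), mul_comm]
  have hbl : ∀ i, ∀ z ∈ B.U, B.x z ∈ Qbar → b i z = l (y i z) := by
    intro i z hz hxz
    rw [hbz, hya i z hz]
    exact key i _ fun j => B.val _ (ha i j) z hz hxz
  have hbd : ∀ i, ∀ z ∈ B.U, HasDerivAt (b i) (deriv B.x z * b' i z) z := by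
    intro i z hz
    have h1 : ∀ j, HasDerivAt (a i j) (deriv B.x z * a' i j z) z := fun j => by
      rw [← hda i j z hz]
      exact ((B.hol _ (ha i j)).differentiableAt (B.isOpen.mem_nhds hz)).hasDerivAt
    have h2 := HasDerivAt.fun_sum (u := Finset.univ) (A := fun j z => (l (c i j) : ℂ) * a i j z)
      fun j _ => (h1 j).const_mul (l (c i j) : ℂ)
    have h3 : b i = fun z => ∑ j, (l (c i j) : ℂ) * a i j z := funext (hbz i)
    rw [h3]
    refine h2.congr_deriv ?_
    rw [hbz', Finset.mul_sum]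
    exact Finset.sum_congr rfl fun j _ => by ring
  have hyd : ∀ i, ∀ z ∈ B.U, ∑ j, c i j * a' i j z = ∑ j, M i j z * y j z := by
    intro i z hz
    have h1 : ∀ j, HasDerivAt (a i j) (deriv B.x z * a' i j z) z := fun j => by
      rw [← hda i j z hz]
      exact ((B.hol _ (ha i j)).differentiableAt (B.isOpen.mem_nhds hz)).hasDerivAt
    have h2 := HasDerivAt.fun_sum (u := Finset.univ) (A := fun j z => c i j * a i j z)
      fun j _ => (h1 j).const_mul (c i j)
    have h3 : y i =ᶠ[𝓝 z] fun z => ∑ j, c i j * a i j z := by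
      filter_upwards [B.isOpen.mem_nhds hz] with w hw
      exact hya i w hw
    have h4 := (h2.congr_of_eventuallyEq h3).unique (hd i z hz)
    apply mul_left_cancel₀ (B.etale z hz)
    rw [← h4, Finset.mul_sum]
    exact Finset.sum_congr rfl fun j _ => by ring
  have hcont : ∀ f ∈ B.A, ContinuousOn f B.U := fun f hf => (B.hol f hf).continuousOn
  have hsys : ∀ i, ∀ z ∈ B.U, b' i z = ∑ j, M i j z * b j z := by
    intro i z hz
    have h1 : ∀ z ∈ B.U, (fun z => b' i z - ∑ j, M i j z * b j z) z = 0 := by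
      refine B.eq_zero ?_ ?_
      · refine (hcont _ (hb' i)).sub (continuousOn_finsetSum _ fun j _ => ?_)
        exact (hcont _ (hM i j)).mul (hcont _ (hb j))
      · intro z hz hxz
        rw [hbz', key i _ fun j => B.val _ (ha' i j) z hz hxz, hyd i z hz, map_sum, sub_eq_zero]
        push_cast
        refine Finset.sum_congr rfl fun j _ => ?_
        rw [ellQ_mul l (B.val _ (hM i j) z hz hxz), hbl j z hz hxz]
    exact sub_eq_zero.1 (h1 z hz)
  refine ⟨b, hb, fun i z hz => ?_, fun i => hbl i s hs hxs⟩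
  rw [← hsys i z hz]
  exact hbd i z hz

variable {B : Curve} {S : Str} (H : Variation B S)

/-- The solutions of a linear system which agree at one point agree. -/
private theorem tr_unique {ι : Type} [Fintype ι] {s : ℂ} (hs : s ∈ B.U)
    {M : ι → ι → ℂ → ℂ} (hM : ∀ i j, M i j ∈ B.A) {y y' : ι → ℂ → ℂ}
    (hy : ∀ i, ∀ z ∈ B.U, HasDerivAt (y i) (deriv B.x z * ∑ j, M i j z * y j z) z)
    (hy' : ∀ i, ∀ z ∈ B.U, HasDerivAt (y' i) (deriv B.x z * ∑ j, M i j z * y' j z) z)
    (h : ∀ i, y i s = y' i s) : ∀ i, ∀ z ∈ B.U, y i z = y' i z := by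
  intro i z hz
  have h1 := ode_zero B.isOpen B.conn hs (u := fun i z => y i z - y' i z)
    (K := fun i j z => deriv B.x z * M i j z) (fun i j => ?_) (fun i z hz => ?_) (fun i => ?_) i z hz
  · exact sub_eq_zero.1 h1
  · exact ((B.hol _ B.x_mem).deriv B.isOpen).continuousOn.mul (B.hol _ (hM i j)).continuousOn
  · refine ((hy i z hz).fun_sub (hy' i z hz)).congr_deriv ?_
    rw [← mul_sub, ← Finset.sum_sub_distrib, Finset.mul_sum]
    exact Finset.sum_congr rfl fun j _ => by ring
  · rw [h, sub_self]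

/-- The system for the matrices of operators. -/
private theorem tr_system : ∃ M : Fin H.n × Fin H.n → Fin H.n × Fin H.n → ℂ → ℂ,
    (∀ jk lm, M jk lm ∈ B.A) ∧
    ∀ (b : Basis (Fin H.n) ℂ S.W) (π : S.W →ₗ[ℂ] S.W) (jk : Fin H.n × Fin H.n), ∀ z ∈ B.U,
      HasDerivAt (H.opm b π jk.1 jk.2)
        (deriv B.x z * ∑ lm, M jk lm z * H.opm b π lm.1 lm.2 z) z := by
  classical
  obtain ⟨P, hPA, hP⟩ := H.exists_conn
  let tr : ℂ → ℂ := (2 : ℕ) • ∑ i, P i i
  have htr : tr ∈ B.A := nsmul_mem (Subalgebra.sum_mem _ fun i _ => hPA i i) 2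
  have htrz : ∀ z, tr z = 2 * ∑ i, P i i z := by
    intro z
    change ((2 : ℕ) • ∑ i, P i i) z = _
    rw [Pi.smul_apply, Finset.sum_apply, nsmul_eq_mul]
    norm_num
  refine ⟨fun jk lm => (if lm.1 = jk.1 ∧ lm.2 = jk.2 then tr else 0) +
      (if lm.2 = jk.2 then P jk.1 lm.1 else 0) - (if lm.1 = jk.1 then P lm.2 jk.2 else 0),
    fun jk lm => ?_, fun b π jk z hz => ?_⟩
  · refine sub_mem (add_mem ?_ ?_) ?_ <;> split_ifs
    · exact htr
    · exact zero_mem _
    · exact hPA _ _
    · exact zero_mem _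
    · exact hPA _ _
    · exact zero_mem _
  · refine (H.opm_deriv b π hP hz jk.1 jk.2).congr_deriv ?_
    congr 1
    obtain ⟨j, k⟩ := jk
    simp only [Pi.sub_apply, Pi.add_apply, sub_mul, add_mul, Finset.sum_sub_distrib,
      Finset.sum_add_distrib]
    have e1 : ∑ lm : Fin H.n × Fin H.n, (if lm.1 = j ∧ lm.2 = k then tr else 0) z *
        H.opm b π lm.1 lm.2 z = 2 * (∑ i, P i i z) * H.opm b π j k z := by
      rw [Finset.sum_eq_single (j, k)]
      · rw [if_pos ⟨rfl, rfl⟩, htrz]
      · rintro ⟨l, m⟩ - hlm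
        rw [if_neg (fun h => hlm (Prod.ext h.1 h.2))]
        simp
      · simp
    have e2 : ∑ lm : Fin H.n × Fin H.n, (if lm.2 = k then P j lm.1 else 0) z *
        H.opm b π lm.1 lm.2 z = ∑ l, P j l z * H.opm b π l k z := by
      rw [Fintype.sum_prod_type]
      refine Finset.sum_congr rfl fun l _ => ?_
      rw [Finset.sum_eq_single k]
      · rw [if_pos rfl]
      · intro m _ hm
        rw [if_neg hm]
        simp
      · simp
    have e3 : ∑ lm : Fin H.n × Fin H.n, (if lm.1 = j then P lm.2 k else 0) z *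
        H.opm b π lm.1 lm.2 z = ∑ l, P l k z * H.opm b π j l z := by
      rw [Fintype.sum_prod_type, Finset.sum_eq_single j]
      · exact Finset.sum_congr rfl fun m _ => by rw [if_pos rfl]
      · intro l _ hl
        refine Finset.sum_eq_zero fun m _ => ?_
        rw [if_neg hl]
        simp
      · simp
    rw [e1, e2, e3]

/-- The part of a flat operator with respect to a linear functional over the algebraic numbers,
in the de Rham form of the fibre at `s`, is flat. -/
theorem Variation.exists_part {s : ℂ} (hs : s ∈ B.U) (hxs : B.x s ∈ Qbar)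
    (b : Basis (Fin H.n) ℂ S.W) (hb : ∀ i, b i = H.ω i s) (l : ℂ →ₗ[Qbar] Qbar)
    (f : Module.End ℂ S.W) (hf : H.Comm f) :
    ∃ f' : Module.End ℂ S.W, H.Comm f' ∧
      ∀ w ∈ Submodule.span Qbar (Set.range b), ∀ k, b.coord k (f' w) = l (b.coord k (f w)) := by
  classical
  have hwr : H.wr b s = 1 := by
    have h1 : (fun i => H.ω i s) = b := funext fun i => (hb i).symm
    rw [Variation.wr, h1, Basis.det_self]
  obtain ⟨M, hM, hMd⟩ := tr_system H
  have hreg : ∀ jk : Fin H.n × Fin H.n, B.RegC (H.opm b f jk.1 jk.2) := fun jk =>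
    H.regular _ (H.opm_mem b f jk.1 jk.2) fun g hg z hz => H.opm_deck b f hf hg hz _ _
  obtain ⟨N, hNA, hNd, hNs⟩ := B.descent_part hs hxs l hreg hM (hMd b f)
  have hop : ∀ (π : S.W →ₗ[ℂ] S.W) j k, H.opm b π j k s = b.coord k (π (b j)) := by
    intro π j k
    have h1 : π (H.ω j s) = ∑ k, b.coord k (π (b j)) • H.ω k s := by
      rw [← hb j]
      conv_lhs => rw [← b.sum_repr (π (b j))]
      exact Finset.sum_congr rfl fun k _ => by rw [← hb k]; rfl
    rw [H.opm_eq b π h1, hwr, one_pow, one_mul]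
  let f' : S.W →ₗ[ℂ] S.W := b.constr ℂ fun j => ∑ k, N (j, k) s • b k
  have hf' : ∀ j, f' (b j) = ∑ k, N (j, k) s • b k := fun j => b.constr_basis ℂ _ j
  have hfk : ∀ j k, b.coord k (f' (b j)) = N (j, k) s := by
    intro j k
    rw [hf', map_sum, Finset.sum_eq_single k]
    · rw [map_smul, Basis.coord_apply, Basis.repr_self, Finsupp.single_eq_same, smul_eq_mul,
        mul_one]
    · intro m _ hm
      rw [map_smul, Basis.coord_apply, Basis.repr_self, Finsupp.single_eq_of_ne (Ne.symm hm),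
        smul_zero]
    · simp
  have heq : ∀ jk : Fin H.n × Fin H.n, ∀ z ∈ B.U, H.opm b f' jk.1 jk.2 z = N jk z := by
    refine tr_unique hs hM (hMd b f') hNd fun jk => ?_
    rw [hop, hfk]
  refine ⟨f', fun g hg w => ?_, fun w hw k => ?_⟩
  · -- the monodromy
    have hgs := H.deck_U g hg s hs
    have hwr' : H.wr b (g.move s) ^ 2 = 1 := by rw [H.wr_deck b hg hs, hwr, one_pow]
    have hbas : ∀ j, g.act (f' (b j)) = f' (g.act (b j)) := by
      intro j
      have h1 := H.opm_sum b f' hgs.1 j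
      rw [hwr', one_smul, H.monodromy g hg s hs, ← hb j] at h1
      rw [h1, hf', map_sum]
      refine Finset.sum_congr rfl fun k _ => ?_
      rw [map_smul, heq (j, k) _ hgs.1, hgs.2 _ (hNA (j, k)), H.monodromy g hg s hs, hb k]
    have h2 : g.act ∘ₗ f' = f' ∘ₗ g.act := b.ext hbas
    exact LinearMap.congr_fun h2 w
  · induction hw using Submodule.span_induction with
    | mem x hx =>
      obtain ⟨j, rfl⟩ := hx
      rw [hfk, hNs, hop]
    | zero => simp
    | add x y _ _ hx hy =>
      rw [map_add, map_add, map_add, map_add, map_add, hx, hy]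
      push_cast
      rfl
    | smul q x _ hx =>
      have h1 : q • x = (q : ℂ) • x := rfl
      rw [h1, map_smul, map_smul, map_smul, map_smul, smul_eq_mul, smul_eq_mul, hx,
        ellQ_mul l q.2]

end GD
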