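import Pool.Agent.H44.TR.Lin
import Pool.Agent.H26.FM.Fac
import Pool.Agent.H44.GD.Leg

/-!
# A flat isomorphism is an isomorphism of structures
-/

noncomputable section

namespace GD

open Complex NumberField Module

section periods

variable {S : Str} {K : Type} [Field K] [NumberField K] (κ : Act K S)
  (hκ : ∀ a, IsHom S S (κ a))

private theorem tr_bot (h : κ 1 = 0) (τ : K →+* ℂ) : eigenpart κ τ = ⊥ := by
  rw [eq_bot_iff]
  intro w hw
  have h1 := (mem_eigenpart κ τ w).1 hw 1
  rw [map_one τ, one_smul, h, LinearMap.zero_apply] at h1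
  exact h1.symm

include hκ

/-- Determinants of periods exist. -/
theorem exists_factorPeriod (τ : K →+* ℂ) : ∃ z, IsFactorPeriod κ τ z := by
  by_cases h : κ 1 = 0
  · refine ⟨1, 0, fun i => i.elim0, 1, linearIndependent_empty_type, ?_, fun i => i.elim0, ?_,
      one_ne_zero⟩
    · rw [tr_bot κ h τ, Set.range_eq_empty, Submodule.span_empty]
    · rw [Matrix.det_one]
  · obtain ⟨M, ι, hM, -, hι, heig, -, -, -⟩ := exists_sub κ hκ h
    obtain ⟨z, hz⟩ := exists_detPeriod ι hM hι τ
    exact ⟨z, factorPeriod_of hM.le (fun τ => (heig τ).symm) hz⟩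

/-- The square of a determinant of periods for a real embedding is a power of `2 π i`. -/
theorem factorPeriod_real (P : Pol S) {τ : K →+* ℂ} (hτ : ComplexEmbedding.conjugate τ = τ)
    {z : ℂ} (hz : IsFactorPeriod κ τ z) :
    Sim (z * z) ((2 * Real.pi * I) ^ (finrank ℂ (eigenpart κ τ) * S.wt)) := by
  by_cases h : κ 1 = 0
  · obtain ⟨n, v, Q, hv, hvs, -, rfl, -⟩ := hz
    have h1 : finrank ℂ (eigenpart κ τ) = 0 := by
      rw [tr_bot κ h τ, finrank_bot]
    have hn : n = 0 := by
      have h2 := finrank_span_eq_card hv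
      rw [hvs, h1, Fintype.card_fin] at h2
      exact h2.symm
    subst hn
    rw [h1, zero_mul, pow_zero, Matrix.det_isEmpty, mul_one]
    exact ⟨one_ne_zero, one_ne_zero, by rw [div_one]; exact isAlgebraic_one⟩
  · obtain ⟨M, ι, hM, -, hι, heig, hB, -, -⟩ := exists_sub κ hκ h
    have h1 : IsDetPeriod ι τ z := detPeriod_of heig hB hz
    have h2 := leg_period ι P hM hι τ h1 (by rw [hτ]; exact h1)
    rwa [heig τ] at h2

/-- A de Rham vector is a sum of de Rham vectors in the eigenparts. -/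
theorem exists_sum_parts {w : S.W} (hw : w ∈ S.D) :
    ∃ u : (K →+* ℂ) → S.W, (∀ τ, u τ ∈ S.D ∧ u τ ∈ eigenpart κ τ) ∧ κ 1 w = ∑ τ, u τ := by
  by_cases h : κ 1 = 0
  · exact ⟨fun _ => 0, fun τ => ⟨zero_mem _, zero_mem _⟩, by
      rw [h, LinearMap.zero_apply, Finset.sum_const_zero]⟩
  · obtain ⟨M, ι, hM, -, hι, heig, -, hcx, hact⟩ := exists_sub κ hκ h
    have hx : κ 1 w ∈ S.cx M := by
      rw [hcx]
      exact ⟨w, rfl⟩
    refine ⟨fun τ => prj ι τ ⟨κ 1 w, hx⟩, fun τ => ⟨?_, ?_⟩, ?_⟩
    · change ((prj ι τ ⟨κ 1 w, hx⟩ : S.cx M) : S.W) ∈ S.D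
      rw [prj_apply, AddSubmonoidClass.coe_finsetSum]
      refine Submodule.sum_mem _ fun i _ => ?_
      have h1 : ((τ (bad K i) • ι (bas K i) ⟨κ 1 w, hx⟩ : S.cx M) : S.W) =
          τ (bad K i) • κ (bas K i) (κ 1 w) := by
        rw [Submodule.coe_smul, hact]
      rw [h1]
      exact S.D_smul (emb_alg K _ _) ((hκ _).deRham _ ((hκ 1).deRham w hw))
    · rw [← heig τ]
      exact prj_mem_eig ι τ _
    · have h1 := congrArg (Subtype.val : S.cx M → S.W) (sum_prj ι ⟨κ 1 w, hx⟩)
      rw [AddSubmonoidClass.coe_finsetSum] at h1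
      exact h1.symm

end periods

variable {S : Str} {K : Type} [Field K] [NumberField K] {κ μ : Act K S} {φ : Module.End ℂ S.W}
  (V : FlatIso κ μ φ)

include V

private theorem tr_maps {τ : K →+* ℂ} {w : S.W} (hw : w ∈ eigenpart μ τ) :
    φ w ∈ eigenpart κ τ := by
  rw [mem_eigenpart] at hw ⊢
  intro a
  have h1 := LinearMap.congr_fun (V.lin a) w
  rw [Module.End.mul_apply, Module.End.mul_apply, hw a, map_smul] at h1
  exact h1.symm

/-- The image of a basis of an eigenpart is a basis. -/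
private theorem tr_basis {τ : K →+* ℂ} {n : ℕ} {v : Fin n → S.W} (hv : LinearIndependent ℂ v)
    (hvs : Submodule.span ℂ (Set.range v) = eigenpart μ τ) :
    (LinearIndependent ℂ fun i => φ (v i)) ∧
      Submodule.span ℂ (Set.range fun i => φ (v i)) = eigenpart κ τ := by
  obtain ⟨ψ, hψ, hψ'⟩ := V.inv
  have hmem : ∀ i, v i ∈ eigenpart μ τ := fun i => by
    rw [← hvs]
    exact Submodule.subset_span (Set.mem_range_self i)
  have hid : ∀ w ∈ eigenpart μ τ, ψ (φ w) = w := by
    intro w hw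
    have h1 := LinearMap.congr_fun hψ w
    rw [Module.End.mul_apply] at h1
    have h2 := (mem_eigenpart μ τ _).1 hw 1
    rw [map_one τ, one_smul] at h2
    rw [h1, h2]
  have hspan : Submodule.span ℂ (Set.range fun i => φ (v i)) = (eigenpart μ τ).map φ := by
    rw [← hvs, Submodule.map_span, ← Set.range_comp]
    rfl
  constructor
  · rw [Fintype.linearIndependent_iff] at hv ⊢
    intro u hu
    refine hv u ?_
    have h1 := congrArg ψ hu
    rw [map_sum, map_zero] at h1
    rw [← h1]
    refine Finset.sum_congr rfl fun i _ => ?_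
    rw [map_smul, hid _ (hmem i)]
  · rw [hspan]
    apply le_antisymm
    · rintro _ ⟨w, hw, rfl⟩
      exact tr_maps V hw
    · intro w hw
      -- the inverse image of `w`
      have h2 := (mem_eigenpart κ τ _).1 hw 1
      rw [map_one τ, one_smul] at h2
      have h1 := LinearMap.congr_fun hψ' w
      rw [Module.End.mul_apply, h2] at h1
      have hμ : ∀ a b x, μ a (μ b x) = μ (a * b) x := by
        intro a b x
        rw [map_mul]
        rfl
      have h3 : φ (μ 1 (ψ w)) = w := by
        have h4 := LinearMap.congr_fun (V.lin 1) (ψ w)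
        rw [Module.End.mul_apply, Module.End.mul_apply, h1, h2] at h4
        exact h4
      refine ⟨μ 1 (ψ w), ?_, h3⟩
      rw [SetLike.mem_coe, mem_eigenpart]
      intro a
      have h5 : φ (μ a (μ 1 (ψ w)) - τ a • μ 1 (ψ w)) = 0 := by
        have h6 := LinearMap.congr_fun (V.lin a) (μ 1 (ψ w))
        rw [Module.End.mul_apply, Module.End.mul_apply, h3, (mem_eigenpart κ τ _).1 hw a] at h6
        rw [map_sub, map_smul, h3, h6, sub_self]
      have h7 := LinearMap.congr_fun hψ (μ a (μ 1 (ψ w)) - τ a • μ 1 (ψ w))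
      rw [Module.End.mul_apply, h5, map_zero, map_sub, map_smul, hμ, hμ, hμ, one_mul, one_mul,
        mul_one] at h7
      rw [hμ, mul_one]
      exact (sub_eq_zero.1 h7.symm)

/-- The determinants of periods of the two parts. -/
theorem FlatIso.period {τ : K →+* ℂ} {c : ℂ} (hc : c ≠ 0)
    (h : ∀ w ∈ S.D, w ∈ eigenpart μ τ → c • φ w ∈ S.D) {z : ℂ} (hz : IsFactorPeriod μ τ z) :
    IsFactorPeriod κ τ (c ^ finrank ℂ (eigenpart μ τ) * z) := by
  obtain ⟨n, v, P, hv, hvs, hvP, rfl, hz0⟩ := hz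
  obtain ⟨h1, h2⟩ := tr_basis V hv hvs
  have hn : finrank ℂ (eigenpart μ τ) = n := by
    rw [← hvs, finrank_span_eq_card hv, Fintype.card_fin]
  have hmem : ∀ i, v i ∈ eigenpart μ τ := fun i => by
    rw [← hvs]
    exact Submodule.subset_span (Set.mem_range_self i)
  refine ⟨n, fun i => φ (v i), c • P, h1, h2, fun i => ⟨?_, ?_⟩, ?_, ?_⟩
  · -- the Betti form
    have h3 : Submodule.span Qbar (S.B : Set S.W) ≤
        (Submodule.span Qbar (S.B : Set S.W)).comap (φ.restrictScalars Qbar) := by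
      rw [Submodule.span_le]
      intro x hx
      exact Submodule.subset_span (V.betti x hx)
    exact h3 (hvP i).1
  · have h3 := h _ (hvP i).2 (Submodule.sum_mem _ fun j _ => Submodule.smul_mem _ _ (hmem j))
    rw [map_sum, Finset.smul_sum] at h3
    have h4 : ∑ j, (c • P) i j • φ (v j) = ∑ j, c • φ (P i j • v j) := by
      refine Finset.sum_congr rfl fun j _ => ?_
      rw [map_smul, smul_smul, Matrix.smul_apply, smul_eq_mul]
    rw [h4]
    exact h3
  · rw [hn, Matrix.det_smul, Fintype.card_fin]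
  · rw [hn]
    exact mul_ne_zero (pow_ne_zero _ hc) hz0

/-- A flat isomorphism maps de Rham vectors of the eigenparts to de Rham vectors. -/
theorem FlatIso.deRham_part {τ : K →+* ℂ} {w : S.W} (hw : w ∈ S.D) (hwτ : w ∈ eigenpart μ τ) :
    φ w ∈ S.D := by
  by_cases h : eigenpart μ τ = ⊥
  · rw [h, Submodule.mem_bot] at hwτ
    rw [hwτ, map_zero]
    exact zero_mem _
  obtain ⟨c, hc, hcD⟩ := V.exists_const h
  obtain ⟨z, hz⟩ := exists_factorPeriod μ (fun a => (V.act a).2.1) τ
  have hy := V.period hc hcD hz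
  set n := finrank ℂ (eigenpart μ τ) with hn
  have hn0 : n ≠ 0 := by
    intro h0
    exact h (Submodule.finrank_eq_zero.1 h0)
  have hz0 : z ≠ 0 := by
    obtain ⟨_, _, _, _, _, _, _, h0⟩ := hz
    exact h0
  -- the constant is algebraic
  have halg : IsAlgebraic ℚ c := by
    by_cases hτ : ComplexEmbedding.conjugate τ = τ
    · obtain ⟨P, -⟩ := V.H.polarised
      have h1 := factorPeriod_real μ (fun a => (V.act a).2.1) P hτ hz
      have h2 := factorPeriod_real κ (fun a => (V.act a).1) P hτ hy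
      have h3 : finrank ℂ (eigenpart κ τ) = n := by
        obtain ⟨m, v, Q, hv, hvs, -⟩ := hz
        obtain ⟨h4, h5⟩ := tr_basis V hv hvs
        rw [← h5, finrank_span_eq_card h4, Fintype.card_fin, hn, ← hvs, finrank_span_eq_card hv,
          Fintype.card_fin]
      rw [h3] at h2
      have h4 := h2.2.2.mul h1.2.2.inv
      have h6 := h1.2.1
      generalize (2 * (Real.pi : ℂ) * I) ^ (n * S.wt) = t at h4 h6
      have h5 : c ^ n * z * (c ^ n * z) / t * (z * z / t)⁻¹ = c ^ (2 * n) := by
        rw [inv_div, div_mul_div_comm, div_eq_iff (mul_ne_zero h6 (mul_ne_zero hz0 hz0))]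
        ring
      rw [h5] at h4
      exact IsAlgebraic.of_pow (by omega) h4
    · have h1 := (V.det τ hτ _ _ hy hz).2.2
      rw [mul_div_cancel_right₀ _ hz0] at h1
      exact IsAlgebraic.of_pow (Nat.pos_of_ne_zero hn0) h1
  have h1 := S.D_smul halg.inv (hcD w hw hwτ)
  rwa [smul_smul, inv_mul_cancel₀ hc, one_smul] at h1

/-- A flat isomorphism is an isomorphism of structures. -/
theorem FlatIso.isHom : IsHom S S (φ * μ 1) where
  wt := rfl
  betti x hx := V.betti _ ((V.act 1).2.1.betti x hx)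
  deRham x hx := by
    obtain ⟨u, hu, hsum⟩ := exists_sum_parts μ (fun a => (V.act a).2.1) hx
    rw [Module.End.mul_apply, hsum, map_sum]
    exact Submodule.sum_mem _ fun τ _ => V.deRham_part (hu τ).1 (hu τ).2
  hodge p x hx := V.hodge p _ ((V.act 1).2.1.hodge p x hx)

end GD
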